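import Pool.Agent.MP_36ea0a_gt.Reduce

/-!
# No monotonic symmetrization preserves an intermediate intrinsic volume

Negative answer to Q1 of `MP_36ea0a_gt`, for all `n ≥ 3`, all `j ∈ {2, …, n - 1}` and both classes
of bodies.
-/

namespace Pool.Agent.Results.MP_36ea0a_gt.NoSymmetrization

open Pool.Agent.MP_36ea0a_gt

/-- Let `2 ≤ j ≤ n - 1`, let `H` be the hyperplane with unit normal `u`, and let `B` be the class
of all nonempty compact convex subsets of `ℝⁿ` or the class of those with nonempty interior. There
is no monotonic, `V_j`-preserving map `S` from `B` to the `H`-symmetric members of `B` that is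
invariant on `H`-symmetric spherical cylinders or projection invariant. -/
theorem result {n j : ℕ} (hj : 2 ≤ j) (hjn : j + 1 ≤ n) (u : E n) (hu : ‖u‖ = 1)
    (B : Set (ConvexBody (E n))) (hB : B = allBodies n ∨ B = fullBodies n) :
    ¬ ∃ S : B → B,
      (∀ K : B, HSymmetric u ((S K).1 : Set (E n))) ∧
      Monotonic S ∧
      Preserving (Nat.le_of_succ_le hjn) S ∧
      (CylinderInvariant u S ∨ ProjectionInvariant u S) := by
  rintro ⟨S, hsym, hmono, hpres, hCP⟩
  obtain ⟨m, rfl⟩ : ∃ m, j = m + 1 := ⟨j - 1, by omega⟩
  have hB' : fullBodies n ⊆ B := by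
    rcases hB with rfl | rfl
    · exact Set.subset_univ _
    · exact subset_rfl
  exact main (Nat.le_of_succ_le hjn) (by omega) (by omega) hu hB' S hsym hmono hpres hCP

end Pool.Agent.Results.MP_36ea0a_gt.NoSymmetrization
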